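import Mathlib
import Pool.Agent.H671T.Bridge

set_option autoImplicit false

namespace Pool.Agent.Results.MP_77ea03_lc.DMinimalUncountable

open Pool.Agent.H671T

/-- No countable infinite field is interpretable in a d-minimal NIP expansion of the ordered group
of the reals. Only the case of a single definable set of d-minimality is used: every definable set
of reals has interior or is a finite union of discrete sets. -/
theorem result :
  ∀ (L : FirstOrder.Language.{0, 0}) [L.Structure ℝ],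
    Set.Definable (∅ : Set ℝ) L {v : Fin 2 → ℝ | v 0 < v 1} →
    Set.Definable (∅ : Set ℝ) L {v : Fin 3 → ℝ | v 0 + v 1 = v 2} →
    (∀ (m k : ℕ) (φ : L.Formula (Fin m ⊕ Fin k)), ∃ N : ℕ, ∀ a : Fin N → Fin m → ℝ,
        ¬ ∀ S : Set (Fin N), ∃ b : Fin k → ℝ,
            ∀ i : Fin N, (φ.Realize (Sum.elim (a i) b) ↔ i ∈ S)) →
    (∀ Y : Set ℝ, Set.Definable (Set.univ : Set ℝ) L {v : Fin 1 → ℝ | v 0 ∈ Y} →
        (interior Y).Nonempty ∨
          ∃ (N : ℕ) (D : Fin N → Set ℝ), (∀ i, DiscreteTopology (D i)) ∧ Y = ⋃ i, D i) →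
    ∀ (n : ℕ) (X : Set (Fin n → ℝ)) (E : Set (Fin n ⊕ Fin n → ℝ))
      (A Mu : Set (Fin n ⊕ Fin n ⊕ Fin n → ℝ)),
      Set.Definable (Set.univ : Set ℝ) L X →
      Set.Definable (Set.univ : Set ℝ) L E →
      Set.Definable (Set.univ : Set ℝ) L A →
      Set.Definable (Set.univ : Set ℝ) L Mu →
      ∀ (K : Type) [Field K] [Infinite K] (g : (Fin n → ℝ) → K),
        g '' X = Set.univ →
        (∀ a ∈ X, ∀ b ∈ X, (Sum.elim a b ∈ E ↔ g a = g b)) →
        (∀ a ∈ X, ∀ b ∈ X, ∀ c ∈ X,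
            (Sum.elim a (Sum.elim b c) ∈ A ↔ g a + g b = g c)) →
        (∀ a ∈ X, ∀ b ∈ X, ∀ c ∈ X,
            (Sum.elim a (Sum.elim b c) ∈ Mu ↔ g a * g b = g c)) →
        Uncountable K := by
  intro L _ hlt hadd hnip hdm n X E A Mu hX hE hA hM K _ _ g hg h1 h2 h3
  obtain ⟨I, hIA, hIM⟩ := exists_interp hX hE hA hM g hg h1 h2 h3
  have H : IntOrDisc L := by
    intro B hB
    rcases hdm B hB with h | ⟨N, D, hD, hBD⟩
    · exact Or.inl h
    · exact Or.inr ⟨N, D, fun i => disc_of_discreteTopology (hD i), hBD⟩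
  exact not_countable_iff.1 (Interp.not_countable hlt hadd hIA hIM hnip H)

end Pool.Agent.Results.MP_77ea03_lc.DMinimalUncountable
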